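import Pool.Agent.Helper712_LP.Stmts

/-!
# Past and future of the mobile nodes are independent (`S_markov`)
-/

set_option autoImplicit false

namespace Pool.Agent.Helper282_LP

open MeasureTheory ProbabilityTheory Set Filter Topology
open scoped ENNReal NNReal
open Pool.Agent.Helper712_LP

section general

variable {Ω Q : Type} [mΩ : MeasurableSpace Ω] {P : Measure Ω}

/-- The family: `none` is the σ-algebra `a`, `some (p, b)` is the σ-algebra `m p b`. -/
@[reducible] def fam (a : MeasurableSpace Ω) (m : Q → Bool → MeasurableSpace Ω) :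
    Option (Q × Bool) → MeasurableSpace Ω
  | none => a
  | some (p, b) => m p b

/-- Independence of a family built from an independent family of pairs of independent
σ-algebras and a further σ-algebra which is independent of everything. -/
theorem iIndep_fam [IsProbabilityMeasure P] (a z : MeasurableSpace Ω) (m' : Q → MeasurableSpace Ω)
    (m : Q → Bool → MeasurableSpace Ω) (hm' : ∀ p, m' p ≤ z) (hm : ∀ p b, m p b ≤ m' p)
    (h1 : iIndep m' P) (h2 : ∀ p, Indep (m p true) (m p false) P) (h3 : Indep a z P) :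
    iIndep (fam a m) P := by
  classical
  rw [iIndep_iff]
  intro S f hf
  set g : Option (Q × Bool) → Set Ω := fun i => if i ∈ S then f i else univ with hg
  have hgm : ∀ i, MeasurableSet[fam a m i] (g i) := by
    intro i
    by_cases hi : i ∈ S
    · simp only [hg, hi, if_true]
      exact hf i hi
    · simp only [hg, hi, if_false]
      exact @MeasurableSet.univ _ (fam a m i)
  set T : Finset Q := (Finset.eraseNone S).image Prod.fst with hT
  set S' : Finset (Option (Q × Bool)) := Finset.insertNone (T ×ˢ (Finset.univ : Finset Bool))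
    with hS'
  have hSS' : S ⊆ S' := by
    intro i hi
    rcases i with _ | ⟨p, b⟩
    · exact Finset.none_mem_insertNone
    · rw [hS', Finset.some_mem_insertNone, Finset.mem_product]
      refine ⟨Finset.mem_image.mpr ⟨(p, b), Finset.mem_eraseNone.mpr hi, rfl⟩, Finset.mem_univ _⟩
  have e1 : ⋂ i ∈ S, f i = g none ∩ ⋂ p ∈ T, (g (some (p, true)) ∩ g (some (p, false))) := by
    ext ω
    simp only [mem_iInter, mem_inter_iff]
    constructor
    · intro h
      have h' : ∀ i, ω ∈ g i := by
        intro i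
        by_cases hi : i ∈ S
        · simp only [hg, hi, if_true]
          exact h i hi
        · simp only [hg, hi, if_false]
          exact mem_univ _
      exact ⟨h' _, fun p _ => ⟨h' _, h' _⟩⟩
    · rintro ⟨h0, h⟩ i hi
      have hgi : g i = f i := by simp only [hg, hi, if_true]
      rw [← hgi]
      rcases i with _ | ⟨p, b⟩
      · exact h0
      · have hp : p ∈ T := Finset.mem_image.mpr ⟨(p, b), Finset.mem_eraseNone.mpr hi, rfl⟩
        cases b
        · exact (h p hp).2
        · exact (h p hp).1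
  have e2 : ∏ i ∈ S, P (f i) = P (g none) *
      ∏ p ∈ T, (P (g (some (p, true))) * P (g (some (p, false)))) := by
    have e3 : ∏ i ∈ S, P (f i) = ∏ i ∈ S, P (g i) :=
      Finset.prod_congr rfl fun i hi => by simp only [hg, hi, if_true]
    rw [e3, Finset.prod_subset hSS', hS', Finset.prod_insertNone, Finset.prod_product]
    · congr 1
      refine Finset.prod_congr rfl fun p _ => ?_
      simp
    · intro i _ hi
      simp only [hg, hi, if_false, measure_univ]
  have hTm : ∀ p, MeasurableSet[m' p] (g (some (p, true)) ∩ g (some (p, false))) := fun p =>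
    @MeasurableSet.inter _ (m' p) _ _ (hm p true _ (hgm (some (p, true))))
      (hm p false _ (hgm (some (p, false))))
  have hz : MeasurableSet[z] (⋂ p ∈ T, (g (some (p, true)) ∩ g (some (p, false)))) :=
    Finset.measurableSet_biInter (m := z) T fun p _ => hm' p _ (hTm p)
  rw [e1, e2, (Indep_iff _ _ _).mp h3 _ _ (hgm none) hz,
    (iIndep_iff _ _).mp h1 T (fun p _ => hTm p)]
  congr 1
  refine Finset.prod_congr rfl fun p _ => ?_
  exact (Indep_iff _ _ _).mp (h2 p) _ _ (hgm (some (p, true))) (hgm (some (p, false)))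

end general

theorem measurable_E {d : ℕ} {Ω : Type} [MeasurableSpace Ω] (f : Ω → E d)
    (h : ∀ j, Measurable fun ω => f ω j) : Measurable f :=
  (MeasurableEquiv.toLp 2 (Fin d → ℝ)).measurable.comp (measurable_pi_iff.2 h)

theorem measurable_coord {d : ℕ} (j : Fin d) : Measurable fun x : E d => x j :=
  (measurable_pi_apply j).comp (MeasurableEquiv.toLp 2 (Fin d → ℝ)).symm.measurable

theorem mpi {Ω ι : Type} {β : ι → Type} [∀ i, MeasurableSpace (β i)] (m : MeasurableSpace Ω)
    {g : Ω → ∀ i, β i} : Measurable[m] g ↔ ∀ i, Measurable[m] (fun x => g x i) :=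
  @measurable_pi_iff Ω ι β m _ g

theorem mcomp {Ω α β : Type} [MeasurableSpace α] [MeasurableSpace β] (m : MeasurableSpace Ω)
    {g : α → β} {f : Ω → α} (hg : Measurable g) (hf : Measurable[m] f) :
    Measurable[m] (fun x => g (f x)) :=
  @Measurable.comp Ω α β m _ _ g f hg hf

theorem msub {Ω : Type} (m : MeasurableSpace Ω) {f g : Ω → ℝ} (hf : Measurable[m] f)
    (hg : Measurable[m] g) : Measurable[m] (fun x => f x - g x) :=
  Measurable.sub hf hg

section sigma

variable {d : ℕ} {Ω : Type}

/-- the σ-algebra of the points -/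
@[reducible] def sX (X : ℕ → Ω → E d) : MeasurableSpace Ω :=
  MeasurableSpace.comap (fun ω i => X i ω) inferInstance

/-- the σ-algebra of the motions -/
@[reducible] def sZ (Z : ℕ → ℝ≥0 → Ω → E d) : MeasurableSpace Ω :=
  MeasurableSpace.comap (fun ω i t => Z i t ω) inferInstance

/-- the σ-algebra of one coordinate -/
@[reducible] def sC (Z : ℕ → ℝ≥0 → Ω → E d) (p : ℕ × Fin d) : MeasurableSpace Ω :=
  MeasurableSpace.comap (fun ω (t : ℝ≥0) => Z p.1 t ω p.2) inferInstance

/-- the past of one coordinate -/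
@[reducible] def sCp (Z : ℕ → ℝ≥0 → Ω → E d) (s : ℝ≥0) (p : ℕ × Fin d) : MeasurableSpace Ω :=
  MeasurableSpace.comap (fun ω (t : Set.Iic s) => Z p.1 t ω p.2) inferInstance

/-- the future of one coordinate -/
@[reducible] def sCf (Z : ℕ → ℝ≥0 → Ω → E d) (s : ℝ≥0) (p : ℕ × Fin d) : MeasurableSpace Ω :=
  MeasurableSpace.comap (fun ω (t : ℝ≥0) => Z p.1 (s + t) ω p.2 - Z p.1 s ω p.2) inferInstance

/-- past and future of one coordinate -/
@[reducible] def sB (Z : ℕ → ℝ≥0 → Ω → E d) (s : ℝ≥0) (p : ℕ × Fin d) (b : Bool) :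
    MeasurableSpace Ω :=
  if b then sCp Z s p else sCf Z s p

theorem sC_le_sZ (Z : ℕ → ℝ≥0 → Ω → E d) (p : ℕ × Fin d) : sC Z p ≤ sZ Z := by
  refine (Measurable.comap_le (m₁ := sZ Z) ?_)
  refine (mpi _).2 fun t => ?_
  have h1 : Measurable fun z : ℕ → ℝ≥0 → E d => z p.1 t :=
    (measurable_pi_apply t).comp (measurable_pi_apply p.1)
  exact mcomp _ ((measurable_coord p.2).comp h1) (comap_measurable _)

theorem sCp_le_sC (Z : ℕ → ℝ≥0 → Ω → E d) (s : ℝ≥0) (p : ℕ × Fin d) : sCp Z s p ≤ sC Z p := by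
  have hpath : Measurable[sC Z p] fun ω (t : ℝ≥0) => Z p.1 t ω p.2 := comap_measurable _
  refine (Measurable.comap_le (m₁ := sC Z p) ?_)
  exact (mpi _).2 fun t => ((mpi _).1 hpath) t

theorem sCf_le_sC (Z : ℕ → ℝ≥0 → Ω → E d) (s : ℝ≥0) (p : ℕ × Fin d) : sCf Z s p ≤ sC Z p := by
  have hpath : Measurable[sC Z p] fun ω (t : ℝ≥0) => Z p.1 t ω p.2 := comap_measurable _
  refine (Measurable.comap_le (m₁ := sC Z p) ?_)
  exact (mpi _).2 fun t => msub _ (((mpi _).1 hpath) (s + t)) (((mpi _).1 hpath) s)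

theorem sB_le_sC (Z : ℕ → ℝ≥0 → Ω → E d) (s : ℝ≥0) (p : ℕ × Fin d) (b : Bool) :
    sB Z s p b ≤ sC Z p := by
  cases b
  · exact sCf_le_sC Z s p
  · exact sCp_le_sC Z s p

theorem Ffut_le (Z : ℕ → ℝ≥0 → Ω → E d) (s : ℝ≥0) (M : MeasurableSpace Ω)
    (h : ∀ p, sCf Z s p ≤ M) : Ffut Z s ≤ M := by
  refine (Measurable.comap_le (m₁ := M) ?_)
  refine (mpi _).2 fun i => (mpi _).2 fun u => ?_
  refine @measurable_E d Ω M _ fun j => ?_
  have hpath : Measurable[sCf Z s (i, j)]
      fun ω (t : ℝ≥0) => Z i (s + t) ω j - Z i s ω j := comap_measurable _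
  exact (((mpi _).1 hpath) u).mono (h (i, j)) le_rfl

theorem Fpast_le (X : ℕ → Ω → E d) (Z : ℕ → ℝ≥0 → Ω → E d) (s : ℝ≥0) (M : MeasurableSpace Ω)
    (h0 : sX X ≤ M) (h : ∀ p, sCp Z s p ≤ M) : Fpast X Z s ≤ M := by
  refine sup_le (iSup_le fun i => ?_) (iSup_le fun i => iSup_le fun u => iSup_le fun hu => ?_)
  · refine le_trans ?_ h0
    refine (Measurable.comap_le (m₁ := sX X) ?_)
    have hpath : Measurable[sX X] fun ω i => X i ω := comap_measurable _
    exact ((mpi _).1 hpath) i
  · refine (Measurable.comap_le (m₁ := M) ?_)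
    refine @measurable_E d Ω M _ fun j => ?_
    have hpath : Measurable[sCp Z s (i, j)]
        fun ω (t : Set.Iic s) => Z i t ω j := comap_measurable _
    exact (((mpi _).1 hpath) ⟨u, hu⟩).mono (h (i, j)) le_rfl

end sigma

/-- **Past and future are independent.** -/
theorem markov : S_markov := by
  intro d Ω mΩ P _ lam X Z hXZ s
  have hXm : sX X ≤ mΩ := by
    refine Measurable.comap_le ?_
    exact measurable_pi_iff.2 fun i => hXZ.points.measurable i
  have hZm : sZ Z ≤ mΩ := by
    refine Measurable.comap_le ?_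
    exact measurable_pi_iff.2 fun i => measurable_pi_iff.2 fun t => hXZ.measurable i t
  have h1 : iIndep (sC Z) P := (iIndepFun_iff_iIndep _ _ _).mp hXZ.indep
  have h2 : ∀ p, Indep (sB Z s p true) (sB Z s p false) P := by
    intro p
    have := ((hXZ.brownian p.1 p.2).toIsPreBrownianReal.indepFun_shift s).symm
    exact (IndepFun_iff_Indep _ _ _).mp this
  have h3 : Indep (sX X) (sZ Z) P := (IndepFun_iff_Indep _ _ _).mp hXZ.indep_points
  have h4 : iIndep (fam (sX X) (sB Z s)) P :=
    iIndep_fam (sX X) (sZ Z) (sC Z) (sB Z s) (sC_le_sZ Z) (sB_le_sC Z s) h1 h2 h3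
  have hle : ∀ i, fam (sX X) (sB Z s) i ≤ mΩ := by
    intro i
    rcases i with _ | ⟨p, b⟩
    · exact hXm
    · exact (sB_le_sC Z s p b).trans ((sC_le_sZ Z p).trans hZm)
  have h5 := indep_iSup_of_disjoint hle h4
    (S := {i | ∀ p, i ≠ some (p, false)}) (T := {i | ∃ p, i = some (p, false)}) (by
      rw [Set.disjoint_left]
      rintro i hi ⟨p, hp⟩
      exact hi p hp)
  refine indep_of_indep_of_le_left (indep_of_indep_of_le_right h5 ?_) ?_
  · refine Ffut_le Z s _ fun p => ?_
    exact le_iSup₂_of_le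
      (f := fun i (_ : i ∈ {i | ∃ p, i = some (p, false)}) => fam (sX X) (sB Z s) i)
      (some (p, false)) ⟨p, rfl⟩ le_rfl
  · refine Fpast_le X Z s _ ?_ fun p => ?_
    · exact le_iSup₂_of_le
        (f := fun i (_ : i ∈ {i | ∀ p, i ≠ some (p, false)}) => fam (sX X) (sB Z s) i)
        none (fun p h => by simp at h) le_rfl
    · exact le_iSup₂_of_le
        (f := fun i (_ : i ∈ {i | ∀ p, i ≠ some (p, false)}) => fam (sX X) (sB Z s) i)
        (some (p, true)) (fun p h => by simp at h) le_rfl

end Pool.Agent.Helper282_LP
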